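import Pool.Agent.H50.GS.Stmt
import Pool.Agent.H50.GN.Tame

/-!
# Graphs of groups: the theorem with the definitions of `Stmt.lean`
-/

set_option autoImplicit false

namespace Pool.Agent.H50.GS

open Pool.Agent.H98.FJ Pool.Agent.H93.TR Pool.Agent.H76.GT

private theorem vpn_iff (n : ℕ) : ∀ (G : Type) [Group G], VPn n G ↔ Pool.Agent.H75.CX.VPn n G := by
  induction n with
  | zero => exact fun G _ => Iff.rfl
  | succ n ih =>
    intro G _
    constructor
    · rintro ⟨N, hN, h1, h2⟩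
      exact ⟨N, hN, (ih N).1 h1, h2⟩
    · rintro ⟨N, hN, h1, h2⟩
      exact ⟨N, hN, (ih N).2 h1, h2⟩

private theorem lvp {G : Type} [Group G] (h : LVP G) : Pool.Agent.H18.TN.LVP G := by
  intro H hH
  obtain ⟨n, hn⟩ := h H hH
  exact ⟨n, (vpn_iff n H).1 hn⟩

private theorem lf_of {G : Type} [Group G] (h : ∀ H : Subgroup G, H.FG → Finite H) (s : Finset G) :
    Finite (Subgroup.closure (s : Set G)) := h _ ⟨s, rfl⟩

private theorem ntn (n : ℕ) : ∀ (G : Type) [Group G], NTn n G → Pool.Agent.H50.GN.NTn n G := by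
  induction n with
  | zero => exact fun G _ h => h
  | succ n ih =>
    intro G _
    rintro ⟨M, hM, h1, h2⟩
    refine ⟨M, hM, ih _ h1, ?_⟩
    rcases h2 with h2 | h2
    · exact Or.inl fun s => h2 _ ⟨s, rfl⟩
    · exact Or.inr h2

private theorem stable_iff {C W : (G : Type) → [Group G] → Prop} : Stable C W ↔ Pool.Agent.H50.GN.Cls C W := by
  constructor
  · intro h
    exact ⟨h.mem, h.sub, h.tf, fun G _ hG x y k hk hxy => h.root G hG x y k hk hxy,
      fun G Q _ _ f hG hf ⟨A, h1, h2, h3⟩ => h.quot G Q f A hG hf h1 h2 h3⟩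
  · intro h
    exact ⟨h.mem, h.tf, fun G _ hG x y k hk hxy => h.root G hG x y k hk hxy, h.inj,
      fun G Q _ _ f A hG hf h1 h2 h3 => h.quot G Q f hG hf ⟨A, h1, h2, h3⟩⟩

private theorem tame_iff {C : (G : Type) → [Group G] → Prop} {H : Type} [Group H] :
    Tame C H ↔ Pool.Agent.H50.GN.Tame C H := by
  constructor
  · rintro ⟨W, hW, F, hF, h1, h2⟩
    exact ⟨W, stable_iff.1 hW, F, hF, h1, h2⟩
  · rintro ⟨W, hW, F, hF, h1, h2⟩
    exact ⟨W, stable_iff.2 hW, F, hF, h1, h2⟩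

/-- products -/
private theorem RR_pi {ι : Type} {R : ι → Type} [∀ i, Group (R i)] (h : ∀ i, Pool.Agent.H18.RG.RR (R i)) :
    Pool.Agent.H18.RG.RR (∀ i, R i) := by
  refine ⟨?_, ?_, ?_⟩
  · intro x y k hk hxy
    funext i
    exact (h i).root _ _ k hk (congrFun hxy i)
  · intro K A hAK hA hn a ha g hg
    funext i
    refine (h i).cen (K.map (Pi.evalMonoidHom R i)) (A.map (Pi.evalMonoidHom R i)) (Subgroup.map_mono hAK) ?_ ?_
      (a i) ⟨a, ha, rfl⟩ (g i) ⟨g, hg, rfl⟩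
    · rintro _ ⟨x, hx, rfl⟩ _ ⟨y, hy, rfl⟩
      rw [← map_mul, hA x hx y hy, map_mul]
    · rintro _ ⟨x, hx, rfl⟩ _ ⟨y, hy, rfl⟩
      obtain ⟨k, hk, h1⟩ := hn x hx y hy
      refine ⟨k, hk, (x * y * x⁻¹) ^ k, h1, ?_⟩
      rw [map_pow, map_mul, map_mul, map_inv]
  · intro x hx
    obtain ⟨i, hi⟩ := Function.ne_iff.1 hx
    obtain ⟨b, hb, hb1⟩ := (h i).hom (x i) hi
    exact ⟨fun g => b (g i), fun g g' h1 h2 => hb _ _ (congrFun h1 i) (congrFun h2 i), hb1⟩

section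

variable {C : (G : Type) → [Group G] → Prop}

theorem tame_prod (hC : Inherits C) (hE : Extension C) (hS : ∀ (G : Type) [Group G], Group.IsSolvable G → C G)
    {U ι S : Type} [Finite U] [Finite ι] (Γ : SimpleGraph U) (R : ι → Type) [∀ i, Group (R i)] [Group S] (hR : ∀ i, TF (R i))
    (hR1 : ∀ i, CSA (R i)) (hR2 : ∀ i, C (R i)) (hS1 : TF S) (hS2 : LocNil S ∨ ∃ n, NTn n S) :
    Tame C (Raag Γ × (∀ i, R i) × S) := by
  have h1 : Pool.Agent.H18.RG.WR C (Raag Γ) := Pool.Agent.H18.RG.raag_RR hC hE Γ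
  have h2 : Pool.Agent.H18.RG.WR C (Raag Γ × (∀ i, R i)) :=
    ⟨Pool.Agent.H18.RG.RR_prod _ _ h1.1 (RR_pi fun i => Pool.Agent.H18.RG.RR_csa (R i) (hR i) (hR1 i)),
      Pool.Agent.H63.RK.prod_mem hC h1.2 (hC.pi ι inferInstance R hR2)⟩
  have h3 : Pool.Agent.H50.GN.WQ S := by
    rcases hS2 with h | ⟨n, h⟩
    · exact Pool.Agent.H50.GN.WN_WQ ⟨hS1, h⟩
    · exact Pool.Agent.H50.GN.NT.wq ⟨n, ntn n S h⟩ hS1
  exact tame_iff.2 (Pool.Agent.H50.GN.tame_of (Pool.Agent.H50.GN.cls_WP hC hS)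
    ⟨Raag Γ × (∀ i, R i), S, inferInstance, inferInstance,
      (MulEquiv.prodAssoc (M := Raag Γ) (N := ∀ i, R i) (P := S)).symm.toMonoidHom,
      (MulEquiv.prodAssoc (M := Raag Γ) (N := ∀ i, R i) (P := S)).symm.injective, h2, h3⟩)

theorem tame_nil (hC : Inherits C) (hS : ∀ (G : Type) [Group G], Group.IsSolvable G → C G) {H : Type} [Group H]
    (h : LocNil H) : Tame C H :=
  tame_iff.2 (Pool.Agent.H50.GN.tame_nil hC hS h)

theorem tame_sub {G H : Type} [Group G] [Group H] (f : G →* H) (hf : Function.Injective f) (h : Tame C H) : Tame C G :=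
  tame_iff.2 (Pool.Agent.H50.GN.tame_inj f hf (tame_iff.1 h))

theorem tame_graphs (hC : Inherits C) (hE : Extension C) (hT : Transfer C)
    (hS : ∀ (G : Type) [Group G], Group.IsSolvable G → C G) {G V : Type} [Group G] [MulAction G V]
    {X : SimpleGraph V} (hX : X.IsTree) (hadj : ∀ (g : G) (v w : V), X.Adj v w → X.Adj (g • v) (g • w))
    (hv : ∀ v : V, Tame C (MulAction.stabilizer G v))
    (he : ∀ v w : V, X.Adj v w → LVP (MulAction.stabilizer G v ⊓ MulAction.stabilizer G w : Subgroup G)) : C G :=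
  Pool.Agent.H50.GN.tame_graphs hC hE hT hS ⟨hX, hadj⟩ (fun v => tame_iff.1 (hv v)) (fun v w h => lvp (he v w h))

end

end Pool.Agent.H50.GS
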