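import Pool.Agent.H76.GT.DefsT

/-!
# Graphs of groups (MP_2a547c_gt): the definitions of the statement
-/

set_option autoImplicit false

namespace Pool.Agent.H50.GS

open Pool.Agent.H98.FJ

/-- torsion-free -/
def TF (G : Type) [Group G] : Prop := ∀ (x : G) (k : ℕ), k ≠ 0 → x ^ k = 1 → x = 1

/-- locally finite: every finitely generated subgroup is finite -/
def LocFin (G : Type) [Group G] : Prop := ∀ H : Subgroup G, H.FG → Finite H

/-- locally nilpotent: every finitely generated subgroup is nilpotent -/
def LocNil (G : Type) [Group G] : Prop := ∀ H : Subgroup G, H.FG → Group.IsNilpotent H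

/-- virtually polycyclic groups: there is a subnormal series of length `n` with virtually cyclic quotients -/
def VPn : ℕ → (G : Type) → [Group G] → Prop
  | 0, G, _ => Subsingleton G
  | n + 1, G, _ => ∃ (N : Subgroup G) (_ : N.Normal), VPn n N ∧ VirtuallyCyclic (G ⧸ N)

/-- every finitely generated subgroup is virtually polycyclic -/
def LVP (G : Type) [Group G] : Prop := ∀ H : Subgroup G, H.FG → ∃ n, VPn n H

/-- some power of `c`, with exponent different from `0`, is in `A`: `c` is in the isolator of `A` -/
def Pw {G : Type} [Group G] (A : Subgroup G) (c : G) : Prop := ∃ k : ℕ, k ≠ 0 ∧ c ^ k ∈ A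

/-- `W` is a class of torsion-free groups in `C` with commuting roots, closed under isomorphism and subgroups, and under the quotients
by the isolators of the commutative subgroups `A` such that all conjugates of the elements of `A` are in the isolator of `A` -/
structure Stable (C W : (G : Type) → [Group G] → Prop) : Prop where
  mem : ∀ (G : Type) [Group G], W G → C G
  tf : ∀ (G : Type) [Group G], W G → TF G
  root : ∀ (G : Type) [Group G], W G → ∀ (x y : G) (k : ℕ), k ≠ 0 → x ^ k * y = y * x ^ k → x * y = y * x
  sub : ∀ (G H : Type) [Group G] [Group H] (f : G →* H), Function.Injective f → W H → W G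
  quot : ∀ (G Q : Type) [Group G] [Group Q] (f : G →* Q) (A : Subgroup G), W G → Function.Surjective f →
    (∀ a ∈ A, ∀ b ∈ A, a * b = b * a) → (∀ (g : G), ∀ a ∈ A, Pw A (g * a * g⁻¹)) → (∀ c, f c = 1 ↔ Pw A c) → W Q

/-- `H` is tame: it has a locally finite normal subgroup with quotient in a stable class -/
def Tame (C : (G : Type) → [Group G] → Prop) (H : Type) [Group H] : Prop :=
  ∃ W : (G : Type) → [Group G] → Prop, Stable C W ∧ ∃ (F : Subgroup H) (_ : F.Normal), LocFin F ∧ W (H ⧸ F)

/-- the centralisers of the elements different from `1` are commutative and malnormal -/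
def CSA (G : Type) [Group G] : Prop :=
  ∀ a : G, a ≠ 1 → (∀ x y : G, a * x = x * a → a * y = y * a → x * y = y * x) ∧
    ∀ g x : G, x ≠ 1 → a * x = x * a → a * (g * x * g⁻¹) = (g * x * g⁻¹) * a → a * g = g * a

/-- neat groups of length `n`: there is a series of normal subgroups of length `n`, every factor `M` of which is locally finite, or
embeds in `ℚ ^ r` and satisfies: `(v x) ^ k = x ^ k` implies `v = 1`, for `v ∈ M`, `k ≠ 0` (no `x` acts on `M ⊗ ℂ` with an eigenvalue which is a
root of unity and different from `1`) -/
def NTn : ℕ → (G : Type) → [Group G] → Prop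
  | 0, G, _ => Subsingleton G
  | n + 1, G, _ => ∃ (M : Subgroup G) (_ : M.Normal), NTn n (G ⧸ M) ∧
      (LocFin M ∨ (∃ (r : ℕ) (f : M →* Multiplicative (Fin r → ℚ)), Function.Injective f) ∧
        ∀ v ∈ M, ∀ (x : G) (k : ℕ), k ≠ 0 → (v * x) ^ k = x ^ k → v = 1)

/-- the relations of the right-angled Artin group of the graph `Γ` -/
def raagRels {U : Type} (Γ : SimpleGraph U) : Set (FreeGroup U) :=
  {r | ∃ a b : U, Γ.Adj a b ∧ r = FreeGroup.of a * FreeGroup.of b * (FreeGroup.of a)⁻¹ * (FreeGroup.of b)⁻¹}

/-- the right-angled Artin group of the graph `Γ` -/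
abbrev Raag {U : Type} (Γ : SimpleGraph U) : Type := PresentedGroup (raagRels Γ)

end Pool.Agent.H50.GS
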